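import Pool.Agent.Helper9.CC.Stm

/-!
The primitive generators of the cone `{x | x j ≥ 0, ∑ x j μ j + y ≥ 0}`.
-/

set_option autoImplicit false

namespace Pool.Agent.Helper31.CC

open Module Pool.Agent.Helper9.CC

/-- The generators. -/
noncomputable def gens {l : ℕ} (μ : Fin l → ℚ) : Fin (l + 1) → NS l :=
  Fin.cons ((0 : Fin l → ℝ), (1 : ℝ))
    (fun j => ((Pi.single j ((μ j).den : ℝ) : Fin l → ℝ), (((-(μ j).num : ℤ)) : ℝ)))

@[simp] lemma gens_zero {l : ℕ} (μ : Fin l → ℚ) : gens μ 0 = (0, 1) := rfl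

@[simp] lemma gens_succ {l : ℕ} (μ : Fin l → ℚ) (j : Fin l) :
    gens μ j.succ = (Pi.single j ((μ j).den : ℝ), (((-(μ j).num : ℤ)) : ℝ)) := rfl

lemma den_mul (q : ℚ) : (q.den : ℝ) * (q : ℝ) = (q.num : ℝ) := by
  have h : (q.den : ℚ) * q = q.num := Rat.den_mul_eq_num q
  exact_mod_cast congrArg (fun t : ℚ => (t : ℝ)) h

lemma sum_fst {l : ℕ} (μ : Fin l → ℚ) (c : Fin (l + 1) → ℝ) (j : Fin l) :
    (∑ i, c i • gens μ i).1 j = c j.succ * (μ j).den := by
  rw [Prod.fst_sum, Finset.sum_apply, Fin.sum_univ_succ]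
  simp only [gens_zero, gens_succ, Prod.smul_fst, Pi.smul_apply, Pi.zero_apply, smul_eq_mul,
    mul_zero, zero_add, Pi.single_apply]
  rw [Finset.sum_eq_single j]
  · simp
  · intro b _ hb
    simp [Ne.symm hb]
  · simp

lemma sum_snd {l : ℕ} (μ : Fin l → ℚ) (c : Fin (l + 1) → ℝ) :
    (∑ i, c i • gens μ i).2 = c 0 - ∑ j : Fin l, c j.succ * (μ j).num := by
  rw [Prod.snd_sum, Fin.sum_univ_succ]
  simp only [gens_zero, gens_succ, Prod.smul_snd, smul_eq_mul, mul_one]
  push_cast
  simp only [mul_neg, Finset.sum_neg_distrib]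
  ring

lemma form_sum {l : ℕ} (μ : Fin l → ℚ) (c : Fin (l + 1) → ℝ) :
    ∑ j, (∑ i, c i • gens μ i).1 j * (μ j : ℝ) + (∑ i, c i • gens μ i).2 = c 0 := by
  rw [sum_snd]
  have h : ∀ j, (∑ i, c i • gens μ i).1 j * (μ j : ℝ) = c j.succ * (μ j).num := by
    intro j
    rw [sum_fst, mul_assoc, den_mul]
  rw [Finset.sum_congr rfl (fun j _ => h j)]
  ring

lemma den_pos' (q : ℚ) : (0 : ℝ) < q.den := by exact_mod_cast q.den_pos

lemma linInd {l : ℕ} (μ : Fin l → ℚ) : LinearIndependent ℝ (gens μ) := by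
  rw [Fintype.linearIndependent_iff]
  intro c hc i
  have h0 : c 0 = 0 := by
    have := form_sum μ c
    rw [hc] at this
    simpa using this.symm
  refine Fin.cases h0 (fun j => ?_) i
  have := sum_fst μ c j
  rw [hc] at this
  have h2 : c j.succ * (μ j).den = 0 := by simpa using this.symm
  rcases mul_eq_zero.1 h2 with h | h
  · exact h
  · exact absurd h (den_pos' _).ne'

lemma prim_rat (q : ℚ) (c : ℝ) (hc : 0 < c) (a b : ℤ) (ha : c * q.den = a)
    (hb : c * ((-q.num : ℤ) : ℝ) = b) : 1 ≤ c := by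
  have hcop : IsCoprime (q.num : ℤ) (q.den : ℤ) := by
    rw [Int.isCoprime_iff_gcd_eq_one]
    simpa [Int.gcd] using q.reduced
  obtain ⟨x, y, hxy⟩ := hcop
  have h1 : c = ((-(x * b) + y * a : ℤ) : ℝ) := by
    have h2 : ((x * q.num + y * q.den : ℤ) : ℝ) = 1 := by rw [hxy]; simp
    push_cast at h2 hb ⊢
    rw [← ha, ← hb]
    linear_combination (-c) * h2
  have h3 : (0 : ℤ) < -(x * b) + y * a := by
    rw [h1] at hc
    exact_mod_cast hc
  rw [h1]
  exact_mod_cast h3

/-- The cone spanned by finitely many vectors. -/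
lemma cone_range {l m : ℕ} (v : Fin m → NS l) :
    cone (Set.range v) = {x | ∃ c : Fin m → ℝ, (∀ i, 0 ≤ c i) ∧ x = ∑ i, c i • v i} := by
  ext x
  constructor
  · rintro ⟨n, c, w, hc, hw, rfl⟩
    choose f hf using hw
    refine ⟨fun i => ∑ k with f k = i, c k, fun i => Finset.sum_nonneg fun k _ => hc k, ?_⟩
    simp only [Finset.sum_smul]
    rw [← Finset.sum_fiberwise Finset.univ f (fun k => c k • w k)]
    refine Finset.sum_congr rfl fun i _ => Finset.sum_congr rfl fun k hk => ?_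
    rw [← hf k, (Finset.mem_filter.1 hk).2]
  · rintro ⟨c, hc, rfl⟩
    exact ⟨m, c, v, hc, fun i => ⟨i, rfl⟩, rfl⟩

theorem genr : S_GENR := by
  intro l μ
  refine ⟨gens μ, linInd μ, ?_, ?_, ?_, rfl, ?_⟩
  · intro i
    refine Fin.cases ?_ (fun j => ?_) i
    · exact ⟨fun j => ⟨0, by simp⟩, 1, by simp⟩
    · refine ⟨fun k => ?_, -(μ j).num, by simp⟩
      by_cases h : k = j
      · subst h
        exact ⟨(μ k).den, by simp⟩
      · exact ⟨0, by simp [Pi.single_apply, h]⟩
  · intro i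
    refine Fin.cases ?_ (fun j => ?_) i
    · rintro c hc ⟨-, n, hn⟩
      have hn' : c = n := by simpa using hn
      rw [hn'] at hc ⊢
      have : (0 : ℤ) < n := by exact_mod_cast hc
      exact_mod_cast this
    · rintro c hc ⟨h1, n, hn⟩
      obtain ⟨a, ha⟩ := h1 j
      refine prim_rat (μ j) c hc a n ?_ ?_
      · simpa using ha
      · simpa using hn
  · rw [cone_range]
    ext x
    constructor
    · rintro ⟨c, hc, rfl⟩
      refine ⟨fun j => ?_, ?_⟩
      · rw [sum_fst]
        exact mul_nonneg (hc _) (den_pos' _).le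
      · rw [form_sum]
        exact hc 0
    · rintro ⟨h1, h2⟩
      refine ⟨Fin.cons (∑ j, x.1 j * (μ j : ℝ) + x.2) (fun j => x.1 j / (μ j).den), ?_, ?_⟩
      · intro i
        refine Fin.cases ?_ (fun j => ?_) i
        · simpa using h2
        · simpa using div_nonneg (h1 j) (den_pos' _).le
      · refine Prod.ext ?_ ?_
        · funext j
          rw [sum_fst]
          simp only [Fin.cons_succ]
          rw [div_mul_cancel₀ _ (den_pos' _).ne']
        · rw [sum_snd]
          simp only [Fin.cons_succ, Fin.cons_zero]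
          have h : ∀ j, x.1 j / (μ j).den * (μ j).num = x.1 j * (μ j : ℝ) := by
            intro j
            rw [← den_mul, ← mul_assoc, div_mul_cancel₀ _ (den_pos' _).ne']
          rw [Finset.sum_congr rfl (fun j _ => h j)]
          ring
  · intro j
    refine ⟨(μ j).den, (μ j).den_pos, -(μ j).num, ?_, rfl⟩
    rw [den_mul]
    simp

end Pool.Agent.Helper31.CC
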